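import Pool.Agent.Helper57.KP.F2

open Filter
open Pool.Agent.Helper57.PC

namespace Pool.Agent.Results.MP_8958e8_nt.FormFactorBeyondOne

/-- The form factor of Baluyot, Goldston, Suriajaya and Turnage-Butterbaugh (on RH: Montgomery's):
`(T log T/2π)⁻¹ ∑∑ m_ρ m_ρ' T^(α(ρ-ρ')) 4/(4-(ρ-ρ')²)`, both sums over the nontrivial zeros with ordinate in `[0,T]`. -/
noncomputable def formFactor (T α : ℝ) : ℂ :=
  (∑ᶠ ρ ∈ zerosUpTo T, ∑ᶠ ρ' ∈ zerosUpTo T, (mult ρ : ℂ) * (mult ρ' : ℂ) * (T : ℂ) ^ ((α : ℂ) * (ρ - ρ')) *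
    (4 / (4 - (ρ - ρ') ^ 2))) / ((T * Real.log T / (2 * Real.pi) : ℝ) : ℂ)

lemma formFactor_eq (T α : ℝ) : formFactor T α = Pool.Agent.Helper57.KP.bg T α := by
  have h2 : zerosUpTo T = ((Pool.Agent.Helper57.Zeta.Zf T : Finset ℂ) : Set ℂ) := by
    ext ρ
    rw [Finset.mem_coe, Pool.Agent.Helper57.Zeta.mem_Zf]
    rfl
  unfold formFactor Pool.Agent.Helper57.KP.bg
  rw [h2, finsum_mem_coe_finset, div_eq_mul_inv, mul_comm]
  congr 1
  refine Finset.sum_congr rfl fun ρ _ => ?_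
  rw [finsum_mem_coe_finset]
  refine Finset.sum_congr rfl fun ρ' _ => ?_
  ring

/-- The pair correlation form factor beyond 1, without any hypothesis: for every `ε > 0` and all large `T`, for all
`1 + ε ≤ α ≤ 3/2`, the form factor `F(α,T)` is real and at least `3/2 - α - ε`. -/
theorem result : ∀ ε : ℝ, 0 < ε → ∀ᶠ T : ℝ in atTop, ∀ α : ℝ, 1 + ε ≤ α → α ≤ 3 / 2 →
    (formFactor T α).im = 0 ∧ 3 / 2 - α - ε ≤ (formFactor T α).re := by
  intro ε hε
  filter_upwards [Pool.Agent.Helper57.KP.pointwise hε] with T hT α h1 h2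
  rw [formFactor_eq]
  exact hT α h1 h2

end Pool.Agent.Results.MP_8958e8_nt.FormFactorBeyondOne
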